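import Pool.Agent.helper81.PJ.Spec

set_option autoImplicit false

open Finset

namespace Pool.Agent.PJ

open Pool.Agent.PY2

theorem MAX_Qd_nonneg (k n : ℕ) (c : ℕ → ℂ) : 0 ≤ Qd k n c := by
  unfold Qd
  exact sum_nonneg fun _ _ => sum_nonneg fun _ _ => by positivity

theorem MAX_block (k n : ℕ) (c : ℕ → ℂ) (hk : 0 < k) (l i : ℕ) (hl : l ≤ n) (hi : i < 2 ^ (n - l)) :
    ‖∑ v ∈ range (2 ^ l), c (i * 2 ^ l + v)‖ ≤ Qd k n c ^ (1 / (2 * (k : ℝ))) := by
  have h1 : ‖∑ v ∈ range (2 ^ l), c (i * 2 ^ l + v)‖ ^ (2 * k) ≤ Qd k n c := by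
    unfold Qd
    have h2 : ‖∑ v ∈ range (2 ^ l), c (i * 2 ^ l + v)‖ ^ (2 * k) ≤
        ∑ i ∈ range (2 ^ (n - l)), ‖∑ v ∈ range (2 ^ l), c (i * 2 ^ l + v)‖ ^ (2 * k) :=
      single_le_sum (f := fun i => ‖∑ v ∈ range (2 ^ l), c (i * 2 ^ l + v)‖ ^ (2 * k))
        (fun _ _ => by positivity) (mem_range.2 hi)
    refine h2.trans ?_
    exact single_le_sum (f := fun l => ∑ i ∈ range (2 ^ (n - l)),
      ‖∑ v ∈ range (2 ^ l), c (i * 2 ^ l + v)‖ ^ (2 * k))
      (fun _ _ => sum_nonneg fun _ _ => by positivity) (mem_range.2 (by omega))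
  have hk' : (0 : ℝ) < 2 * (k : ℝ) := by
    have : (0 : ℝ) < k := by exact_mod_cast hk
    linarith
  have h3 : ‖∑ v ∈ range (2 ^ l), c (i * 2 ^ l + v)‖ =
      (‖∑ v ∈ range (2 ^ l), c (i * 2 ^ l + v)‖ ^ (2 * k)) ^ (1 / (2 * (k : ℝ))) := by
    rw [← Real.rpow_natCast, ← Real.rpow_mul (norm_nonneg _)]
    have : ((2 * k : ℕ) : ℝ) * (1 / (2 * (k : ℝ))) = 1 := by
      push_cast
      field_simp
    rw [this, Real.rpow_one]
  rw [h3]
  exact Real.rpow_le_rpow (by positivity) h1 (by positivity)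

/-- initial segments -/
theorem MAX_init (k n : ℕ) (c : ℕ → ℂ) (hk : 0 < k) (v : ℕ) (hv : v ≤ 2 ^ n) :
    ∀ l ≤ n + 1, ‖∑ w ∈ Ico (v / 2 ^ l * 2 ^ l) v, c w‖ ≤ l * Qd k n c ^ (1 / (2 * (k : ℝ))) := by
  intro l
  induction l with
  | zero =>
    intro _
    simp
  | succ l ih =>
    intro hl
    have ih' := ih (by omega)
    set q := Qd k n c ^ (1 / (2 * (k : ℝ))) with hq
    have hq0 : 0 ≤ q := Real.rpow_nonneg (MAX_Qd_nonneg k n c) _
    have e1 : v / 2 ^ (l + 1) = v / 2 ^ l / 2 := by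
      rw [Nat.div_div_eq_div_mul, pow_succ]
    have hle1 : v / 2 ^ (l + 1) * 2 ^ (l + 1) ≤ v / 2 ^ l * 2 ^ l := by
      rw [e1, pow_succ]
      have := Nat.div_mul_le_self (v / 2 ^ l) 2
      calc v / 2 ^ l / 2 * (2 ^ l * 2) = (v / 2 ^ l / 2 * 2) * 2 ^ l := by ring
        _ ≤ v / 2 ^ l * 2 ^ l := Nat.mul_le_mul_right _ this
    have hle2 : v / 2 ^ l * 2 ^ l ≤ v := Nat.div_mul_le_self _ _
    have e2 : ∑ w ∈ Ico (v / 2 ^ (l + 1) * 2 ^ (l + 1)) v, c w =
        ∑ w ∈ Ico (v / 2 ^ (l + 1) * 2 ^ (l + 1)) (v / 2 ^ l * 2 ^ l), c w +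
          ∑ w ∈ Ico (v / 2 ^ l * 2 ^ l) v, c w :=
      (sum_Ico_consecutive _ hle1 hle2).symm
    have e3 : ‖∑ w ∈ Ico (v / 2 ^ (l + 1) * 2 ^ (l + 1)) (v / 2 ^ l * 2 ^ l), c w‖ ≤ q := by
      rcases Nat.mod_two_eq_zero_or_one (v / 2 ^ l) with h0 | h1
      · have : v / 2 ^ (l + 1) * 2 ^ (l + 1) = v / 2 ^ l * 2 ^ l := by
          rw [e1, pow_succ]
          have h2 := Nat.div_add_mod (v / 2 ^ l) 2
          rw [h0, add_zero] at h2
          calc v / 2 ^ l / 2 * (2 ^ l * 2) = (2 * (v / 2 ^ l / 2)) * 2 ^ l := by ring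
            _ = v / 2 ^ l * 2 ^ l := by rw [h2]
        rw [this]
        simpa using hq0
      · set i := v / 2 ^ l / 2 * 2 with hi
        have h2 := Nat.div_add_mod (v / 2 ^ l) 2
        rw [h1] at h2
        have hi2 : i + 1 = v / 2 ^ l := by omega
        have e4 : v / 2 ^ (l + 1) * 2 ^ (l + 1) = i * 2 ^ l := by
          rw [e1, pow_succ, hi]
          ring
        have e5 : v / 2 ^ l * 2 ^ l = i * 2 ^ l + 2 ^ l := by
          rw [← hi2]
          ring
        rw [e4, e5, sum_Ico_eq_sum_range, Nat.add_sub_cancel_left]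
        refine MAX_block k n c hk l i (by omega) ?_
        have h3 : (i + 1) * 2 ^ l ≤ 2 ^ n := by
          rw [hi2]
          exact hle2.trans hv
        have h4 : 2 ^ n = 2 ^ (n - l) * 2 ^ l := by
          rw [← pow_add]
          congr 1
          omega
        rw [h4] at h3
        have := Nat.le_of_mul_le_mul_right h3 (by positivity)
        omega
    rw [e2]
    refine (norm_add_le _ _).trans ?_
    push_cast
    linarith

theorem MAX : MAX_stmt := by
  intro k n c hk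
  set q := Qd k n c ^ (1 / (2 * (k : ℝ))) with hq
  have hq0 : 0 ≤ q := Real.rpow_nonneg (MAX_Qd_nonneg k n c) _
  have hmj : mj k n c = 2 * ((n : ℝ) + 1) * q := rfl
  have hmj0 : 0 ≤ mj k n c := by
    rw [hmj]
    positivity
  refine ⟨hmj0, fun S hS hconv => ?_⟩
  rcases S.eq_empty_or_nonempty with h | h
  · rw [h]
    simpa using hmj0
  · set u := S.min' h with hu
    set w := S.max' h with hw
    have hSe : S = Ico u (w + 1) := by
      ext v
      rw [mem_Ico]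
      constructor
      · intro hv
        exact ⟨S.min'_le v hv, Nat.lt_succ_of_le (S.le_max' v hv)⟩
      · rintro ⟨h1, h2⟩
        exact hconv u (S.min'_mem h) w (S.max'_mem h) v h1 (Nat.lt_succ_iff.1 h2)
    have hw2 : w + 1 ≤ 2 ^ n := mem_range.1 (hS (S.max'_mem h))
    have huw : u ≤ w + 1 := (S.min'_le w (S.max'_mem h)).trans (Nat.le_succ w)
    have hini : ∀ v ≤ 2 ^ n, ‖∑ x ∈ range v, c x‖ ≤ ((n : ℝ) + 1) * q := by
      intro v hv
      have h1 := MAX_init k n c hk v hv (n + 1) le_rfl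
      have h2 : v / 2 ^ (n + 1) = 0 := by
        apply Nat.div_eq_of_lt
        calc v ≤ 2 ^ n := hv
          _ < 2 ^ (n + 1) := by
            rw [pow_succ]
            have : 0 < 2 ^ n := by positivity
            omega
      rw [h2, zero_mul, ← range_eq_Ico] at h1
      push_cast at h1
      exact h1
    have e1 : ∑ v ∈ S, c v = ∑ x ∈ range (w + 1), c x - ∑ x ∈ range u, c x := by
      rw [hSe, sum_Ico_eq_sub _ huw]
    rw [e1]
    refine (norm_sub_le _ _).trans ?_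
    have h1 := hini (w + 1) hw2
    have h2 := hini u (huw.trans hw2)
    rw [hmj]
    linarith

end Pool.Agent.PJ
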