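import Mathlib
import Pool.Agent.helper95.PY2.Spec
import Pool.Agent.helper82.Weil.M
import Pool.Agent.helper47.SPI.Spec

/-!
# Project pj (MP_f6e9a2_nt, Paley graph conjecture): `A` a SPARSE subset of a progression, `B` COMPLETELY arbitrary

THEOREM (`FINM_stmt`): for `ε > 0` there are `δ > 0`, `p₀`: for primes `p > p₀`, `A` in a Moebius image of
`{0,..,N-1}` (or in a progression with `N` terms), `N ≥ p^(1/3+ε)`, EVERY `B ⊆ F_p`, `X ≤ |A|`, `Y ≤ |B|`,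
`X, Y ≤ p^(1/2)`, `N^8 p^(7/3+ε) ≤ X^11 Y^3`, `χ ≠ 1`, `|β| ≤ 1`:
`∑_(z ∈ A) |∑_(w ∈ B) β_w χ(z+w)| ≤ p^(-δ) |A| |B|`.
(`|A|, |B| ≥ p^(19/42+ε)` for `N = p^(1/2)`; `|A|, |B| ≥ p^(1/2-c)` for `N ≤ p^(7/12-η)`.)

PROOF.  Pieces: `X ≤ |A| ≤ 4X`, `Y ≤ |B| ≤ 4Y`; `A ⊆ [0,N)`; `κ = ε/100`.  `V = 2^s ~ min (p^(1/4),
X^7 Y^2 / (N^5 p^(4/3+10κ)))`, cells of length `L ~ N/V`, `E = N p^κ / X`.  Exact shifts; the sums over intervals of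
shifts are bounded by a dyadic majorant `mj`, whose moments are bounded by Weil.
DENSE cells (`≥ E` points of `B`): Cauchy in each cell, keeping `A` (CSA); `n -> n - 2 v (b'-b)`: only the ONE point
`(m+b)/(b'-b)` appears; collisions: MASS, COL of py2; fourth moment (DP).
SPARSE cells (`< E` points): Cauchy over all of `B`; `n -> n - v u`, `v < V' ~ p^(1/3)`, `U < u ≤ 2U ~ N/V'`: the points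
`((m+w)/u, (m+w')/u)` of `F_p^2`; `∑ nu2^2 ≤ |B| ∑ nu1^2`, and `nu1` is counted as in row NUM of SPI; sixth moment.

RULES.  Row `X`: file `Pool/Agent/<seat>/PJ/X.lean`, `import Pool.Agent.helper81.PJ.Spec`, namespace `Pool.Agent.PJ`,
`open Finset Pool.Agent.PY2`, `theorem X (h1 : Y_stmt) ... : X_stmt` (only the rows named after (from ...), in this
order).  Rows of py2 (`Pool.Agent.PY2.MOM_stmt` ...) enter as hypotheses too where they are named.  Auxiliary lemmas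
prefixed `X_`.  No double quotes, no native_decide, no convert / congr!.
-/

set_option autoImplicit false

open Finset

namespace Pool.Agent.PJ

open Pool.Agent.PY2

/-- `χ(x-2v) conj χ(x+1-2v)` -/
noncomputable def c1 {p : ℕ} (χ : MulChar (ZMod p) ℂ) (x : ZMod p) (v : ℕ) : ℂ :=
  χ (x - ((2 * v : ℕ) : ZMod p)) * (starRingEnd ℂ) (χ (x + 1 - ((2 * v : ℕ) : ZMod p)))

/-- `χ(x-v) conj χ(y-v)` -/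
noncomputable def c2 {p : ℕ} (χ : MulChar (ZMod p) ℂ) (x y : ZMod p) (v : ℕ) : ℂ :=
  χ (x - (v : ZMod p)) * (starRingEnd ℂ) (χ (y - (v : ZMod p)))

/-- the sum of the `2k`-th powers of the sums over the dyadic blocks of `[0, 2^n)` -/
noncomputable def Qd (k n : ℕ) (c : ℕ → ℂ) : ℝ :=
  ∑ l ∈ range (n + 1), ∑ i ∈ range (2 ^ (n - l)), ‖∑ v ∈ range (2 ^ l), c (i * 2 ^ l + v)‖ ^ (2 * k)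

/-- the dyadic majorant of the sums over the intervals of `[0, 2^n)` -/
noncomputable def mj (k n : ℕ) (c : ℕ → ℂ) : ℝ :=
  2 * ((n : ℝ) + 1) * Qd k n c ^ (1 / (2 * (k : ℝ)))

/-- the sum of the correlations of the pairs in the cells of length `L`, with the weights `1/|B_j|` -/
noncomputable def WW {p : ℕ} (χ : MulChar (ZMod p) ℂ) (B : Finset (ZMod p)) (N L : ℕ) : ℝ :=
  ∑ j ∈ range p, ((cl B L j).card : ℝ)⁻¹ * ∑ z ∈ pr B L j, ‖Gc χ N z.1 z.2‖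

/-- the number of `(u, m)` with `U < u ≤ 2U`, `m < H`, `u x - m ∈ B` and `u y - m ∈ B` -/
def nu2 {p : ℕ} (B : Finset (ZMod p)) (H U : ℕ) (x y : ZMod p) : ℕ :=
  ∑ u ∈ Ioc U (2 * U), ∑ m ∈ range H,
    if (u : ZMod p) * x - (m : ZMod p) ∈ B ∧ (u : ZMod p) * y - (m : ZMod p) ∈ B then 1 else 0

/-! ### The dyadic majorant -/

/-- **MAX** (medium).  `mj k n c ≥ 0`; and for every order convex `S ⊆ [0, 2^n)` the sum over `S` is at most `mj`.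
`S` is empty or `Ico u v` with `u ≤ v ≤ 2^n`.  Put `a l = (∑_i ‖block(l,i)‖^(2k))^(1/(2k))`, so every block sum of level
`l` is `≤ a l`.  Initial segments: with `v_l = (v / 2^l) * 2^l`, `v_0 = v`, `v_(n+1) = 0`, the set
`Ico v_(l+1) v_l` is empty or the block `(l, 2 (v / 2^(l+1)))`, so `‖∑_(w<v) c w‖ ≤ ∑_(l ≤ n) a l`; hence
`‖∑_(Ico u v) c‖ ≤ 2 ∑_(l ≤ n) a l ≤ 2 (n+1) Qd^(1/(2k))` (each `a l ≤ Qd^(1/(2k))`, monotone). -/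
def MAX_stmt : Prop := ∀ (k n : ℕ) (c : ℕ → ℂ), 0 < k → 0 ≤ mj k n c ∧
  ∀ S : Finset ℕ, S ⊆ range (2 ^ n) → (∀ u ∈ S, ∀ w ∈ S, ∀ v, u ≤ v → v ≤ w → v ∈ S) →
    ‖∑ v ∈ S, c v‖ ≤ mj k n c

/-- **MO1** (medium, from `PY2.MOM_stmt`).  `mj^(2k) = (2(n+1))^(2k) Qd` (`Real.rpow_natCast`, `Real.rpow_mul`,
`Qd ≥ 0`).  `c1 χ x (i 2^l + v) = c1 χ (x - 2 i 2^l) v`, and with `W = 2^l`, `v = W - v'`, `v' = 1..W`: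
`‖∑_(v<W) c1 χ y v‖ = Ph χ W (y - 2 W)`.  So by MOM (translation invariance of `∑_x`) for each of the `2^(n-l)` blocks:
`∑_x ‖block‖^(2k) ≤ k^(2k) W^k p + W^(2k) 4 k √p`, and `2^(n-l) W^k ≤ (2^n)^k`, `2^(n-l) W^(2k) ≤ (2^n)^(2k)`. -/
def MO1_stmt : Prop := ∀ (p : ℕ) [Fact p.Prime] (χ : MulChar (ZMod p) ℂ), χ ≠ 1 → ∀ k n : ℕ, 0 < k →
  2 * 2 ^ n + 1 < p → ∑ x : ZMod p, mj k n (c1 χ x) ^ (2 * k) ≤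
    (2 * ((n : ℝ) + 1)) ^ (2 * k + 1) * ((k : ℝ) ^ (2 * k) * ((2 : ℝ) ^ n) ^ k * p +
      ((2 : ℝ) ^ n) ^ (2 * k) * (4 * k * Real.sqrt p))

/-- **MO2** (medium).  The same with `moment_two` of `Pool/Agent/helper82/Weil/M.lean` (`A = {-v : v < 2^l}`,
`2^l ≤ p`, `c2 χ x y (i 2^l + v) = c2 χ (x - i 2^l) (y - i 2^l) v`). -/
def MO2_stmt : Prop := ∀ (p : ℕ) [Fact p.Prime] (χ : MulChar (ZMod p) ℂ), χ ≠ 1 → ∀ k n : ℕ, 0 < k →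
  2 ^ n ≤ p → ∑ x : ZMod p, ∑ y : ZMod p, mj k n (c2 χ x y) ^ (2 * k) ≤
    (2 * ((n : ℝ) + 1)) ^ (2 * k + 1) * ((k : ℝ) ^ (2 * k) * ((2 : ℝ) ^ n) ^ k * (p : ℝ) ^ 2 +
      ((2 : ℝ) ^ n) ^ (2 * k) * (2 * k * Real.sqrt p) ^ 2)

/-! ### Exact shifts -/

/-- **SH1** (medium, from MAX).  `F n = χ(n+b) conj χ(n+b+h)` (`n` an integer or an element of `ZMod p`).  For each
`v < 2^n`: `∑_(i<N) F i = ∑_(m : 2vh ≤ m < N + 2vh) F(m - 2vh)`, `m < N + 2vh ≤ 3N`, and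
`F(m - 2vh) = c1 χ ((m+b)/h) v` (`|χ(h)| = 1`).  Exchange the sums: for each `m < 3N` the set of the `v < 2^n` with
`2vh ≤ m < N + 2vh` is order convex, MAX. -/
def SH1_stmt : Prop := ∀ (p : ℕ) [Fact p.Prime] (χ : MulChar (ZMod p) ℂ) (k N n h : ℕ) (b : ZMod p), 0 < k →
  1 ≤ h → h < p → 2 ^ n * h ≤ N →
  (2 : ℝ) ^ n * ‖Gc χ N b (b + (h : ZMod p))‖ ≤
    ∑ m ∈ range (3 * N), mj k n (c1 χ (((m : ZMod p) + b) / (h : ZMod p)))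

/-- **SH2** (medium, from MAX).  The same with `F i = χ(i+b) conj χ(i+b')` and `i = m - v u`:
`F(m - v u) = c2 χ ((m+b)/u) ((m+b')/u) v`, `m < N + 2^n u ≤ 2N`. -/
def SH2_stmt : Prop := ∀ (p : ℕ) [Fact p.Prime] (χ : MulChar (ZMod p) ℂ) (k N n u : ℕ) (b b' : ZMod p), 0 < k →
  1 ≤ u → u < p → 2 ^ n * u ≤ N →
  (2 : ℝ) ^ n * ‖Gc χ N b b'‖ ≤
    ∑ m ∈ range (2 * N), mj k n (c2 χ (((m : ZMod p) + b) / (u : ZMod p)) (((m : ZMod p) + b') / (u : ZMod p)))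

/-! ### Dense cells -/

/-- **CSA** (medium; copy of CS, `Pool/Agent/helper94/PY2/CS.lean`, with `A` kept).  Triangle inequality over the cells,
Cauchy in each cell: `S_j² ≤ |A| ∑_(n ∈ A) |∑_(b ∈ B_j)|² ≤ |A| ∑_(n<N) |∑_(b ∈ B_j)|² ≤ |A| (N D_j + 2 ∑_(z ∈ pr) ‖Gc‖)`;
Cauchy over the cells with the weights `D_j`. -/
def CSA_stmt : Prop := ∀ (p : ℕ) [Fact p.Prime] (χ : MulChar (ZMod p) ℂ) (N L : ℕ) (E : ℝ) (A : Finset ℕ)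
  (B : Finset (ZMod p)) (β : ZMod p → ℂ), A ⊆ range N → 1 ≤ L → 0 < E → (∀ b, ‖β b‖ ≤ 1) →
  (∀ j, cl B L j = ∅ ∨ E ≤ (cl B L j).card) →
  (∑ n ∈ A, ‖∑ b ∈ B, β b * χ ((n : ZMod p) + b)‖) ^ 2 ≤
    (B.card : ℝ) * A.card * (N * B.card / E + 2 * WW χ B N L)

/-- **NU1** (medium, from MAX, SH1; copy of NUS, `Pool/Agent/helper95/PY2/NUS.lean`).  For `z ∈ pr B L j`,
`h = z.2.val - z.1.val ∈ [1, L)`, `z.2 = z.1 + h`, `2^n h ≤ N`: SH1; and `∑_(m<3N) g((m+z.1)/h) = ∑_x #{m < 3N :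
m + z.1 = x (z.2 - z.1)} g x`. -/
def NU1_stmt : Prop := ∀ (p : ℕ) [Fact p.Prime] (χ : MulChar (ZMod p) ℂ) (k N L n : ℕ) (B : Finset (ZMod p)), 0 < k →
  1 ≤ L → L ≤ p → 2 ^ n * L ≤ N →
  (2 : ℝ) ^ n * WW χ B N L ≤ ∑ x : ZMod p, nu B (3 * N) L x * mj k n (c1 χ x)

/-- **DP** (medium, from MAX, NU1, MO1, `PY2.MASS_stmt`, `PY2.COL_stmt`, `PY2.HOL_stmt`).  HOL with `k = 2`, `f = nu B (3N) L`,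
`g x = mj 2 n (c1 χ x)`: `(2^n WW)^4 ≤ (3N|B|)² (10^4 9 N²|B|²/p + 10^5 T 9 N²|B|/L) (2(n+1))^5 (16 4^n p + 8 16^n √p)`,
`16^n √p ≤ 4^n p` as `(2^n)^4 ≤ p`; `T ≥ 1` (`n = 1` in the hypothesis on divisors, `p ≥ 1`); divide by `16^n`
(`10^5 81 32 24 ≤ 10^10`). -/
def DP_stmt : Prop := ∀ (p : ℕ) [Fact p.Prime] (χ : MulChar (ZMod p) ℂ), χ ≠ 1 → ∀ (N L n T : ℕ)
  (B : Finset (ZMod p)), 1 ≤ L → 2 ^ n * L ≤ N → 72 * N ≤ p → (2 ^ n) ^ 4 ≤ p → 2 * 2 ^ n + 1 < p →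
  (∀ m : ℕ, 1 ≤ m → m ≤ p → m.divisors.card ≤ T) →
  (4 : ℝ) ^ n * WW χ B N L ^ 4 ≤
    10 ^ 10 * ((n : ℝ) + 1) ^ 5 * T * ((N : ℝ) ^ 4 * (B.card : ℝ) ^ 3 * (B.card + p / L))

/-! ### Sparse cells -/

/-- **SSQ** (short).  Cauchy over `n ∈ A`, extend to `n < N`, expand the square: `∑_(n<N) χ(n+b) conj χ(n+b') =
Gc χ N b b'`. -/
def SSQ_stmt : Prop := ∀ (p : ℕ) [Fact p.Prime] (χ : MulChar (ZMod p) ℂ) (N : ℕ) (A : Finset ℕ)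
  (B : Finset (ZMod p)) (β : ZMod p → ℂ), A ⊆ range N → (∀ b, ‖β b‖ ≤ 1) →
  (∑ n ∈ A, ‖∑ b ∈ B, β b * χ ((n : ZMod p) + b)‖) ^ 2 ≤
    (A.card : ℝ) * ∑ z ∈ B ×ˢ B, ‖Gc χ N z.1 z.2‖

/-- **NU2** (medium, from MAX, SH2).  Sum SH2 over `u ∈ (U, 2U]` and `z ∈ B × B`; for fixed `u, m` substitute
`x = (m+z.1)/u`, `y = (m+z.2)/u`, i.e. `z.1 = u x - m`, `z.2 = u y - m` (`u ≠ 0` in `ZMod p`). -/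
def NU2_stmt : Prop := ∀ (p : ℕ) [Fact p.Prime] (χ : MulChar (ZMod p) ℂ) (k N U n : ℕ) (B : Finset (ZMod p)), 0 < k →
  2 * U < p → 2 ^ n * (2 * U) ≤ N →
  (U : ℝ) * (2 : ℝ) ^ n * ∑ z ∈ B ×ˢ B, ‖Gc χ N z.1 z.2‖ ≤
    ∑ x : ZMod p, ∑ y : ZMod p, (nu2 B (2 * N) U x y : ℝ) * mj k n (c2 χ x y)

/-- **MS2** (short).  For fixed `u, m` there are `|B|` values of `x` and `|B|` of `y` (`u ≠ 0` in `ZMod p`). -/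
def MS2_stmt : Prop := ∀ (p : ℕ) [Fact p.Prime] (H U : ℕ) (B : Finset (ZMod p)), 2 * U < p →
  ∑ x : ZMod p, ∑ y : ZMod p, (nu2 B H U x y : ℝ) = (U : ℝ) * H * (B.card : ℝ) ^ 2

/-- **EN2** (short-medium).  `∑_(x,y) nu2² = ∑_((u,m),(u₁,m₁)) R²`, `R = #{x : u x - m ∈ B, u₁ x - m₁ ∈ B} ≤ |B|`
(`u ≠ 0`), and `∑ R = ∑_x (#{(u,m) : u x - m ∈ B})² = ∑_x SPI.nu²` (`z.1 + m = u x`). -/
def EN2_stmt : Prop := ∀ (p : ℕ) [Fact p.Prime] (H U : ℕ) (B : Finset (ZMod p)), 2 * U < p →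
  ∑ x : ZMod p, ∑ y : ZMod p, (nu2 B H U x y : ℝ) ^ 2 ≤
    (B.card : ℝ) * ∑ x : ZMod p, (Pool.Agent.SPI.nu B H U x : ℝ) ^ 2

/-- **NUG** (short; `Pool/Agent/helper29/SPI/NUM.lean` with at most `D` points of `S` per cell of length `h`; import that
file).  The only change is `hWle`: `NUM_W S h R y = ∑_j #(cell j) wf R (y - j h) ≤ D * 1000`. -/
def NUG_stmt : Prop := ∀ (p : ℕ) [Fact p.Prime] (S : Finset (ZMod p)) (h M T : ℕ) (D : ℝ), 0 < M → 2 * M ≤ h →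
  24 * h ≤ p → (∀ n : ℕ, 1 ≤ n → n ≤ p → n.divisors.card ≤ T) →
  (∀ j : ℕ, ((S.filter fun s => s.val / h = j).card : ℝ) ≤ D) →
    ∑ r : ZMod p, (Pool.Agent.SPI.nu S h M r : ℝ) ^ 2 ≤
      10 ^ 4 * ((M : ℝ) * S.card * h) ^ 2 / p + 10 ^ 5 * T * D * (M * S.card * h)

/-- **HO2** (short; Hoelder in `F_p^2`; copy of HOL, `Pool/Agent/helper92/PY2/HOL.lean`). -/
def HO2_stmt : Prop := ∀ (p : ℕ) [Fact p.Prime] (f g : ZMod p → ZMod p → ℝ) (k : ℕ), 0 < k →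
  (∀ x y, 0 ≤ f x y) → (∀ x y, 0 ≤ g x y) →
  (∑ x, ∑ y, f x y * g x y) ^ (2 * k) ≤
    (∑ x, ∑ y, f x y) ^ (2 * k - 2) * (∑ x, ∑ y, f x y ^ 2) * ∑ x, ∑ y, g x y ^ (2 * k)

/-- **SPQ** (medium, from MAX, NU2, MO2, MS2, EN2, NUG, HO2).  HO2 with `k = 3`:
`(U 2^n Σ)^6 ≤ (2UN|B|²)^4 |B| (10^4 (2UN|B|)²/p + 10^5 T D 2UN|B|) (2(n+1))^7 (3^6 8^n p² + 64^n 36 p)`, and
`64^n p ≤ 8^n p²` as `(2^n)^3 ≤ p`; `T ≥ 1`; divide by `U^6 64^n` (`16 · 128 · 765 · 2 · 10^5 ≤ 10^12`). -/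
def SPQ_stmt : Prop := ∀ (p : ℕ) [Fact p.Prime] (χ : MulChar (ZMod p) ℂ), χ ≠ 1 → ∀ (N U n T : ℕ) (D : ℝ)
  (B : Finset (ZMod p)), 0 < U → 2 ^ n * (2 * U) ≤ N → 48 * N ≤ p → (2 ^ n) ^ 3 ≤ p →
  (∀ m : ℕ, 1 ≤ m → m ≤ p → m.divisors.card ≤ T) →
  (∀ j : ℕ, ((B.filter fun b => b.val / (2 * N) = j).card : ℝ) ≤ D) →
  (8 : ℝ) ^ n * (∑ z ∈ B ×ˢ B, ‖Gc χ N z.1 z.2‖) ^ 6 ≤
    10 ^ 12 * ((n : ℝ) + 1) ^ 7 * T * (p * (N : ℝ) ^ 6 * (B.card : ℝ) ^ 11 +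
      D * (p : ℝ) ^ 2 * (N : ℝ) ^ 5 * (B.card : ℝ) ^ 10 / U)

/-- **CEL** (short).  The interval `[2Nj, 2N(j+1))` meets at most `2N/L + 2` cells of length `L`. -/
def CEL_stmt : Prop := ∀ (p : ℕ) [NeZero p] (N L : ℕ) (E : ℝ) (B : Finset (ZMod p)), 1 ≤ L → 1 ≤ N →
  (∀ j, ((cl B L j).card : ℝ) ≤ E) →
  ∀ j : ℕ, ((B.filter fun b => b.val / (2 * N) = j).card : ℝ) ≤ (2 * N / L + 2) * E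

/-! ### Numbers -/

/-- **PV** (medium, pure numbers).  `κ = ε/100`.  `V* = min (p^(1/4)) (X^7 Y^2 / (N^5 p^(4/3+10κ)))`, `s` with
`2^s ≤ V* < 2 2^s`, `L = N / 2^s`.  Write `N = p^ν`, `X = p^x`, `Y = p^y` (`x = log X / log p`; all claims are linear
after taking logarithms).  Hypotheses: (H) `11x+3y-8ν-7/3-ε ≥ 0`, `x, y ≤ 1/2`, `ν ≥ 1/3+ε`; so
`ν ≤ 7/12 - ε/8` (`72 N ≤ p` for large `p`).  Certificates: `4x+y-3ν-3/4 = (4/11) H + (1/11)(1/2-y) + ...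
≥ 3ε/8`; `4x-4ν+1/2`: `(4/11) H + (12/11)(1/2-y)`; with the second value of `V*`: `11x+3y-8ν-7/3-18κ ≥ 0` is (H),
`18x+4y-14ν-8/3-28κ`: `(18/11) H + (10/11)(1/2-y)`; `6x+y-6ν-9κ`: `(6/11) H + (7/11)(1/2-y)`;
`V* ≥ 1`: `7x+2y-5ν-4/3-10κ`: `(2/3) H + (1/3)(1/2-x)`. -/
def PV_stmt : Prop := ∀ ε : ℝ, 0 < ε → ε ≤ 1 → ∃ p₀ : ℕ, ∀ p : ℕ, p₀ < p → ∀ (N : ℕ) (X Y : ℝ),
  (p : ℝ) ^ (1 / 3 + ε) ≤ N → 0 < X → 0 < Y → X ≤ (p : ℝ) ^ (1 / 2 : ℝ) → Y ≤ (p : ℝ) ^ (1 / 2 : ℝ) →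
  (N : ℝ) ^ 8 * (p : ℝ) ^ (7 / 3 + ε) ≤ X ^ 11 * Y ^ 3 →
  ∃ s L : ℕ, 1 ≤ L ∧ 2 ^ s * L ≤ N ∧ N ≤ 2 * (2 ^ s * L) ∧ 72 * N ≤ p ∧ (2 ^ s) ^ 4 ≤ p ∧
    (N : ℝ) ^ 4 * (p : ℝ) ^ (8 * (ε / 100)) ≤ 4 * ((2 : ℝ) ^ s) ^ 2 * X ^ 4 ∧
    (N : ℝ) ^ 3 * (p : ℝ) ^ (1 + 8 * (ε / 100)) ≤ 2 * (2 : ℝ) ^ s * (X ^ 4 * Y) ∧
    (N : ℝ) ^ 6 * (p : ℝ) ^ (9 * (ε / 100)) ≤ X ^ 6 * Y ∧
    (2 : ℝ) ^ s * (N : ℝ) ^ 5 * (p : ℝ) ^ (4 / 3 + 10 * (ε / 100)) ≤ X ^ 7 * Y ^ 2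

/-- **DEN** (medium, numeric, from CSA, DP, `PY2.DIV_stmt`).  `E = N p^κ / X`, `T = ⌊C p^(κ/2)⌋` (DIV with `κ/2`),
`(s+1)^5 ≤ p^(κ/2)` for large `p` (`2^s ≤ p`).  DP: `WW^4 ≤ C' p^κ (N^4 Y^4 / 4^s + N^3 Y^3 p / 2^s)` (`|B| ≤ 4Y`,
`1/L ≤ 2 2^s / N`) `≤ C'' p^(-7κ) X^4 Y^4 ≤ (p^(-κ) X Y)^4`.  CSA: `S² ≤ 16 X Y (4 X Y p^(-κ) + 2 p^(-κ) X Y) ≤
100 p^(-κ) (X Y)²`. -/
def DEN_stmt : Prop := ∀ κ : ℝ, 0 < κ → ∃ p₀ : ℕ, ∀ (p : ℕ) [Fact p.Prime], p₀ < p →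
  ∀ (N L s : ℕ) (X Y : ℝ) (A : Finset ℕ) (B : Finset (ZMod p)), A ⊆ range N → 0 < X → 0 < Y →
  (A.card : ℝ) ≤ 4 * X → (B.card : ℝ) ≤ 4 * Y → 1 ≤ L → 2 ^ s * L ≤ N → N ≤ 2 * (2 ^ s * L) → 72 * N ≤ p →
  (2 ^ s) ^ 4 ≤ p → (N : ℝ) ^ 4 * (p : ℝ) ^ (8 * κ) ≤ 4 * ((2 : ℝ) ^ s) ^ 2 * X ^ 4 →
  (N : ℝ) ^ 3 * (p : ℝ) ^ (1 + 8 * κ) ≤ 2 * (2 : ℝ) ^ s * (X ^ 4 * Y) →
  (∀ j, cl B L j = ∅ ∨ N * (p : ℝ) ^ κ / X ≤ (cl B L j).card) →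
  ∀ χ : MulChar (ZMod p) ℂ, χ ≠ 1 → ∀ β : ZMod p → ℂ, (∀ b, ‖β b‖ ≤ 1) →
    ∑ n ∈ A, ‖∑ b ∈ B, β b * χ ((n : ZMod p) + b)‖ ≤ 10 * (p : ℝ) ^ (-(κ / 2)) * (X * Y)

/-- **SPA** (medium, numeric, from SSQ, SPQ, CEL, `PY2.DIV_stmt`).  `n` with `2^n ≤ p^(1/3) < 2 2^n`, `U = N / (2 2^n)`,
`U ≥ N / (4 2^n)` (`N ≥ p^(1/3+κ) ≥ 2 2^n`), `D = (2N/L+2) N p^κ / X ≤ 6 2^s N p^κ / X`, `T`, `(n+1)^7` as in DEN.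
SPQ (`8^n ≥ p/8`): `Σ^6 ≤ C p^κ (N^6 Y^11 + 2^s N^5 p^(4/3+κ) Y^10 / X) ≤ C p^(-8κ) X^6 Y^12 ≤ (p^(-κ) X Y²)^6`.
SSQ: `S² ≤ 4 X p^(-κ) X Y²`. -/
def SPA_stmt : Prop := ∀ κ : ℝ, 0 < κ → ∃ p₀ : ℕ, ∀ (p : ℕ) [Fact p.Prime], p₀ < p →
  ∀ (N L s : ℕ) (X Y : ℝ) (A : Finset ℕ) (B : Finset (ZMod p)), A ⊆ range N → 0 < X → 0 < Y →
  (A.card : ℝ) ≤ 4 * X → (B.card : ℝ) ≤ 4 * Y → 1 ≤ L → 2 ^ s * L ≤ N → N ≤ 2 * (2 ^ s * L) → 72 * N ≤ p →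
  (p : ℝ) ^ (1 / 3 + κ) ≤ N → (N : ℝ) ^ 6 * (p : ℝ) ^ (9 * κ) ≤ X ^ 6 * Y →
  (2 : ℝ) ^ s * (N : ℝ) ^ 5 * (p : ℝ) ^ (4 / 3 + 10 * κ) ≤ X ^ 7 * Y ^ 2 →
  (∀ j, ((cl B L j).card : ℝ) ≤ N * (p : ℝ) ^ κ / X) →
  ∀ χ : MulChar (ZMod p) ℂ, χ ≠ 1 → ∀ β : ZMod p → ℂ, (∀ b, ‖β b‖ ≤ 1) →
    ∑ n ∈ A, ‖∑ b ∈ B, β b * χ ((n : ZMod p) + b)‖ ≤ 10 * (p : ℝ) ^ (-(κ / 2)) * (X * Y)

/-- **CORE** (medium, from PV, DEN, SPA).  `κ = ε/100`; PV gives `s, L`; `B₁` = the points of `B` in cells with at least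
`E = N p^κ / X` points, `B₂` the rest (the cells of each part are cells of `B` or empty); DEN for `B₁`, SPA for `B₂`,
triangle inequality: `≤ 20 p^(-κ/2) X Y ≤ p^(-κ/4) |A| |B|`.  (`δ = ε/400`; SPA needs `κ ≤ ε`.) -/
def CORE_stmt : Prop := ∀ ε : ℝ, 0 < ε → ε ≤ 1 → ∃ δ : ℝ, 0 < δ ∧ ∃ p₀ : ℕ, ∀ (p : ℕ) [Fact p.Prime], p₀ < p →
  ∀ (N : ℕ) (X Y : ℝ) (A : Finset ℕ) (B : Finset (ZMod p)), A ⊆ range N → (p : ℝ) ^ (1 / 3 + ε) ≤ N →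
  0 < X → 0 < Y → X ≤ A.card → (A.card : ℝ) ≤ 4 * X → Y ≤ B.card → (B.card : ℝ) ≤ 4 * Y →
  X ≤ (p : ℝ) ^ (1 / 2 : ℝ) → Y ≤ (p : ℝ) ^ (1 / 2 : ℝ) →
  (N : ℝ) ^ 8 * (p : ℝ) ^ (7 / 3 + ε) ≤ X ^ 11 * Y ^ 3 →
  ∀ χ : MulChar (ZMod p) ℂ, χ ≠ 1 → ∀ β : ZMod p → ℂ, (∀ b, ‖β b‖ ≤ 1) →
    ∑ n ∈ A, ‖∑ b ∈ B, β b * χ ((n : ZMod p) + b)‖ ≤ (p : ℝ) ^ (-δ) * (A.card * B.card)

/-- **CUT** (medium, from CORE; any sizes).  As `N ≥ X > 0`... the condition forces `X, Y ≥ 1` for large `p`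
(`X ≤ p^(1/2)` gives `Y^3 ≥ N^8 p^(7/3) / X^11`, and `X ≤ |A| ≤ N ≤ p^(7/12)`: `Y^3 ≥ p^(7/3) / N^3 ≥ 1`;
`X^11 ≥ N^8 p^(5/6) ≥ 1`).  `X₀ = ⌈X⌉ ≤ 2X`; cut `A` into pieces with `X₀ ≤ |A_i| ≤ 2 X₀` (induction on `|A|`), so
`X ≤ |A_i| ≤ 4X`; the same for `B`; CORE for each pair, sum. -/
def CUT_stmt : Prop := ∀ ε : ℝ, 0 < ε → ε ≤ 1 → ∃ δ : ℝ, 0 < δ ∧ ∃ p₀ : ℕ, ∀ (p : ℕ) [Fact p.Prime], p₀ < p →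
  ∀ (N : ℕ) (X Y : ℝ) (A : Finset ℕ) (B : Finset (ZMod p)), A ⊆ range N → (p : ℝ) ^ (1 / 3 + ε) ≤ N →
  0 < X → 0 < Y → X ≤ A.card → Y ≤ B.card →
  X ≤ (p : ℝ) ^ (1 / 2 : ℝ) → Y ≤ (p : ℝ) ^ (1 / 2 : ℝ) →
  (N : ℝ) ^ 8 * (p : ℝ) ^ (7 / 3 + ε) ≤ X ^ 11 * Y ^ 3 →
  ∀ χ : MulChar (ZMod p) ℂ, χ ≠ 1 → ∀ β : ZMod p → ℂ, (∀ b, ‖β b‖ ≤ 1) →
    ∑ n ∈ A, ‖∑ b ∈ B, β b * χ ((n : ZMod p) + b)‖ ≤ (p : ℝ) ^ (-δ) * (A.card * B.card)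

/-- **FINM** (medium, from CUT; the theorem).  We may assume `ε ≤ 1` (else use `ε = 1`: the hypotheses for a larger
`ε` imply those for `1` when `p ≥ 1`).  For `z = (an+b)/(cn+d)` and `w ∈ B` with `a + cw ≠ 0`:
`χ(z+w) = conj χ(cn+d) χ(a+cw) χ(n + w')`, `w' = (b+dw)/(a+cw)`, injective in `w` (`ad - bc ≠ 0`); at most one `w` is
left out (if `c ≠ 0`), it adds `≤ |A|`.  Choose one `n < N` for each `z`: `A' ⊆ [0,N)`, `|A'| = |A|`.  CUT with `ε/2`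
for `A'`, `B' = {w'}`, `β' = β χ(a+cw)`, `X`, `Y/2` (`|B'| ≥ |B| - 1 ≥ |B|/2`); `|B| ≥ Y ≥ p^(7/36)` because
`X ≤ |A| ≤ N ≤ p^(7/12)` and `Y^3 ≥ N^8 p^(7/3) / X^11 ≥ p^(7/3) / N^3`.  Compare
`Pool/Agent/helper75/PY2/FINM.lean`. -/
def FINM_stmt : Prop := ∀ ε : ℝ, 0 < ε → ∃ δ : ℝ, 0 < δ ∧ ∃ p₀ : ℕ, ∀ (p : ℕ) [Fact p.Prime], p₀ < p →
  ∀ (A B : Finset (ZMod p)) (a b c d : ZMod p) (N : ℕ) (X Y : ℝ), a * d - b * c ≠ 0 →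
  (∀ z ∈ A, ∃ n : ℕ, n < N ∧ c * (n : ZMod p) + d ≠ 0 ∧ z = (a * (n : ZMod p) + b) / (c * (n : ZMod p) + d)) →
  (p : ℝ) ^ (1 / 3 + ε) ≤ N → 0 < X → 0 < Y → X ≤ A.card → Y ≤ B.card →
  X ≤ (p : ℝ) ^ (1 / 2 : ℝ) → Y ≤ (p : ℝ) ^ (1 / 2 : ℝ) →
  (N : ℝ) ^ 8 * (p : ℝ) ^ (7 / 3 + ε) ≤ X ^ 11 * Y ^ 3 →
  ∀ χ : MulChar (ZMod p) ℂ, χ ≠ 1 → ∀ β : ZMod p → ℂ, (∀ w, ‖β w‖ ≤ 1) →
    ∑ z ∈ A, ‖∑ w ∈ B, β w * χ (z + w)‖ ≤ (p : ℝ) ^ (-δ) * (A.card * B.card)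

end Pool.Agent.PJ
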