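import Pool.Agent.helper81.PJ.Spec

set_option autoImplicit false

open Finset

namespace Pool.Agent.PJ

open Pool.Agent.PY2

theorem CEL : CEL_stmt := by
  intro p _ N L E B hL hN hE j
  have hLr : (0 : ℝ) < L := by exact_mod_cast hL
  have hE0 : 0 ≤ E := le_trans (Nat.cast_nonneg _) (hE 0)
  set a : ℕ := 2 * N * j / L with ha
  set c : ℕ := (2 * N * j + (2 * N - 1)) / L with hc
  have hsub : (B.filter fun b => b.val / (2 * N) = j) ⊆ (Icc a c).biUnion fun i => cl B L i := by
    intro b hb
    rw [mem_filter] at hb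
    obtain ⟨hb1, hb2⟩ := hb
    have h1 : 2 * N * j ≤ b.val := by
      rw [← hb2]
      exact Nat.mul_div_le _ _
    have h2 : b.val < 2 * N * j + 2 * N := by
      have := Nat.lt_mul_div_succ b.val (show 0 < 2 * N by omega)
      rw [hb2] at this
      calc b.val < 2 * N * (j + 1) := this
        _ = 2 * N * j + 2 * N := by ring
    rw [mem_biUnion]
    refine ⟨b.val / L, ?_, ?_⟩
    · rw [mem_Icc]
      exact ⟨Nat.div_le_div_right h1, Nat.div_le_div_right (by omega)⟩
    · unfold cl
      rw [mem_filter]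
      exact ⟨hb1, rfl⟩
  have h3 : ((B.filter fun b => b.val / (2 * N) = j).card : ℝ) ≤
      ∑ i ∈ Icc a c, ((cl B L i).card : ℝ) := by
    have h4 := (card_le_card hsub).trans card_biUnion_le
    exact_mod_cast h4
  have h5 : ∑ i ∈ Icc a c, ((cl B L i).card : ℝ) ≤ ((Icc a c).card : ℝ) * E := by
    calc ∑ i ∈ Icc a c, ((cl B L i).card : ℝ) ≤ ∑ _i ∈ Icc a c, E := sum_le_sum fun i _ => hE i
      _ = _ := by rw [sum_const, nsmul_eq_mul]
  have h6 : ((Icc a c).card : ℝ) ≤ 2 * N / L + 2 := by
    rw [Nat.card_Icc]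
    have h7 : (c : ℝ) ≤ (2 * N * j + (2 * N - 1)) / L := by
      have := @Nat.cast_div_le ℝ _ _ _ (2 * N * j + (2 * N - 1)) L
      refine this.trans (le_of_eq ?_)
      congr 1
      rw [Nat.cast_add, Nat.cast_sub (by omega)]
      push_cast
      ring
    have h8 : (2 * N * j : ℝ) / L < a + 1 := by
      have := Nat.lt_floor_add_one ((2 * N * j : ℝ) / L)
      have h9 : ⌊(2 * N * j : ℝ) / L⌋₊ = a := by
        rw [ha]
        have := Nat.floor_div_eq_div (K := ℝ) (2 * N * j) L
        rw [← this]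
        push_cast
        rfl
      rwa [h9] at this
    have hac : a ≤ c := Nat.div_le_div_right (by omega)
    have h10 : ((c + 1 - a : ℕ) : ℝ) = (c : ℝ) + 1 - a := by
      rw [Nat.cast_sub (by omega)]
      push_cast
      ring
    rw [h10]
    have h11 : (2 * N * j + (2 * N - 1) : ℝ) / L = (2 * N * j : ℝ) / L + 2 * N / L - 1 / L := by
      field_simp
      ring
    have h12 : (0 : ℝ) < 1 / L := by positivity
    linarith
  calc ((B.filter fun b => b.val / (2 * N) = j).card : ℝ) ≤ _ := h3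
    _ ≤ _ := h5
    _ ≤ _ := mul_le_mul_of_nonneg_right h6 hE0

end Pool.Agent.PJ
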