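import Mathlib
import Pool.Agent.helper81.PJ.Spec

/-!
# Project pj, second part: all moments

THEOREM (`FING_stmt`): as `FINM_stmt`, with the `2k`-th moment for the dense cells, the `2l`-th moment for the sparse
cells and `V` cells in an interval of length `N`; the conditions (`X = |A|`, `Y = |B|`) are
(c1) `N² p^ε ≤ V X²`, (c2) `N^(2k-1) p^(1+ε) ≤ V^(k-1) X^(2k) Y`, (c3) `V^(2k) ≤ p`, `1 ≤ V ≤ N`,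
(c4) `N^(2l) p^ε ≤ X^(2l) Y`, (c5) `V N^(2l-1) p^(1+1/l+ε) ≤ X^(2l+1) Y²`, (c6) `p^(1/l+ε) ≤ N ≤ p^(1-ε)`.
(`k, l → ∞`, `X = N`: the exponent `1/4`; `k = 2`, `l = 3`: `FINM_stmt`.)

Rows as in `Spec.lean` (rows `DPG, SPQG, DENG, SPAG, COREG, FING`: the proofs of `DP, SPQ, DEN, SPA, CORE, FINM` with
`k`, `l` instead of `2`, `3`).
-/

set_option autoImplicit false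

open Finset

namespace Pool.Agent.PJ

open Pool.Agent.PY2

/-- **DPG** (medium, from MAX, NU1, MO1, `PY2.MASS_stmt`, `PY2.COL_stmt`, `PY2.HOL_stmt`; DP with `k` instead of `2`).
HOL with `f = nu B (3N) L`, `g x = mj k n (c1 χ x)`: `(2^n WW)^(2k) ≤ (3N|B|)^(2k-2) (10^4 9 N²|B|²/p + 10^5 T 9 N²|B|/L)
(2(n+1))^(2k+1) (k^(2k) (2^n)^k p + 4k (2^n)^(2k) √p)`, and `(2^n)^(2k) √p ≤ (2^n)^k p` as `(2^n)^(2k) ≤ p`; `T ≥ 1`. -/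
def DPG_stmt : Prop := ∀ k : ℕ, 0 < k → ∃ C : ℝ, 0 < C ∧ ∀ (p : ℕ) [Fact p.Prime] (χ : MulChar (ZMod p) ℂ), χ ≠ 1 →
  ∀ (N L n T : ℕ) (B : Finset (ZMod p)), 1 ≤ L → 2 ^ n * L ≤ N → 72 * N ≤ p → (2 ^ n) ^ (2 * k) ≤ p →
  2 * 2 ^ n + 1 < p → (∀ m : ℕ, 1 ≤ m → m ≤ p → m.divisors.card ≤ T) →
  ((2 : ℝ) ^ n) ^ k * WW χ B N L ^ (2 * k) ≤
    C * ((n : ℝ) + 1) ^ (2 * k + 1) * T * ((N : ℝ) ^ (2 * k) * (B.card : ℝ) ^ (2 * k - 1) * (B.card + p / L))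

/-- **SPQG** (medium, from MAX, NU2, MO2, MS2, EN2, NUG, HO2; SPQ with `l` instead of `3`).  HO2 with `k = l`:
`(U 2^n Σ)^(2l) ≤ (2UN|B|²)^(2l-2) |B| (10^4 (2UN|B|)²/p + 10^5 T D 2UN|B|) (2(n+1))^(2l+1) (l^(2l) (2^n)^l p² +
4 l² (2^n)^(2l) p)`, and `(2^n)^(2l) p ≤ (2^n)^l p²` as `(2^n)^l ≤ p`. -/
def SPQG_stmt : Prop := ∀ l : ℕ, 0 < l → ∃ C : ℝ, 0 < C ∧ ∀ (p : ℕ) [Fact p.Prime] (χ : MulChar (ZMod p) ℂ), χ ≠ 1 →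
  ∀ (N U n T : ℕ) (D : ℝ) (B : Finset (ZMod p)), 0 < U → 2 ^ n * (2 * U) ≤ N → 48 * N ≤ p → (2 ^ n) ^ l ≤ p →
  (∀ m : ℕ, 1 ≤ m → m ≤ p → m.divisors.card ≤ T) →
  (∀ j : ℕ, ((B.filter fun b => b.val / (2 * N) = j).card : ℝ) ≤ D) →
  ((2 : ℝ) ^ n) ^ l * (∑ z ∈ B ×ˢ B, ‖Gc χ N z.1 z.2‖) ^ (2 * l) ≤
    C * ((n : ℝ) + 1) ^ (2 * l + 1) * T * (p * (N : ℝ) ^ (2 * l) * (B.card : ℝ) ^ (4 * l - 1) +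
      D * (p : ℝ) ^ 2 * (N : ℝ) ^ (2 * l - 1) * (B.card : ℝ) ^ (4 * l - 2) / U)

/-- **DENG** (medium, numeric, from CSA, DPG, `PY2.DIV_stmt`; DEN with `k` instead of `2`).  `E = N p^κ / X`,
`T = ⌊C p^(κ/4)⌋`, `(s+1)^(2k+1) ≤ p^(κ/4)` for large `p` (`2^s ≤ p`).  DPG: `WW^(2k) ≤ C' p^(κ/2) (N^(2k) Y^(2k) / (2^s)^k +
N^(2k-1) Y^(2k-1) p / (2^s)^(k-1))` (`|B| ≤ 4Y`, `1/L ≤ 2 2^s / N`) `≤ C'' p^(κ/2) (p^(-4kκ) + p^(-(2k+2)κ)) (XY)^(2k) ≤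
(p^(-κ) X Y)^(2k)`.  CSA: `S² ≤ 16 X Y (4 X Y p^(-κ) + 2 p^(-κ) X Y)`. -/
def DENG_stmt : Prop := ∀ k : ℕ, 0 < k → ∀ κ : ℝ, 0 < κ → ∃ p₀ : ℕ, ∀ (p : ℕ) [Fact p.Prime], p₀ < p →
  ∀ (N L s : ℕ) (X Y : ℝ) (A : Finset ℕ) (B : Finset (ZMod p)), A ⊆ range N → 0 < X → 0 < Y →
  (A.card : ℝ) ≤ 4 * X → (B.card : ℝ) ≤ 4 * Y → 1 ≤ L → 2 ^ s * L ≤ N → N ≤ 2 * (2 ^ s * L) → 72 * N ≤ p →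
  (2 ^ s) ^ (2 * k) ≤ p → (N : ℝ) ^ 2 * (p : ℝ) ^ (4 * κ) ≤ 2 * (2 : ℝ) ^ s * X ^ 2 →
  (N : ℝ) ^ (2 * k - 1) * (p : ℝ) ^ (1 + (2 * k + 2) * κ) ≤ (2 * (2 : ℝ) ^ s) ^ (k - 1) * (X ^ (2 * k) * Y) →
  (∀ j, cl B L j = ∅ ∨ N * (p : ℝ) ^ κ / X ≤ (cl B L j).card) →
  ∀ χ : MulChar (ZMod p) ℂ, χ ≠ 1 → ∀ β : ZMod p → ℂ, (∀ b, ‖β b‖ ≤ 1) →
    ∑ n ∈ A, ‖∑ b ∈ B, β b * χ ((n : ZMod p) + b)‖ ≤ 10 * (p : ℝ) ^ (-(κ / 2)) * (X * Y)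

/-- **SPAG** (medium, numeric, from SSQ, SPQG, CEL, `PY2.DIV_stmt`; SPA with `l` instead of `3`).  `n` with
`2^n ≤ p^(1/l) < 2 2^n`, `U = N / (2 2^n) ≥ N / (4 2^n)` (`N ≥ p^(1/l+κ) ≥ 2 2^n`), `D = (2N/L+2) N p^κ / X ≤
6 2^s N p^κ / X`, `T`, `(n+1)^(2l+1)` as in DENG.  SPQG (`(2^n)^l ≥ p / 2^l`): `Σ^(2l) ≤ C p^(κ/2) (N^(2l) Y^(4l-1) +
2^s N^(2l-1) p^(1+1/l+κ) Y^(4l-2) / X) ≤ C' p^(κ/2) p^(-(2l+3)κ) X^(2l) Y^(4l) ≤ (p^(-κ) X Y²)^(2l)`.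
SSQ: `S² ≤ 4 X p^(-κ) X Y²`. -/
def SPAG_stmt : Prop := ∀ l : ℕ, 0 < l → ∀ κ : ℝ, 0 < κ → ∃ p₀ : ℕ, ∀ (p : ℕ) [Fact p.Prime], p₀ < p →
  ∀ (N L s : ℕ) (X Y : ℝ) (A : Finset ℕ) (B : Finset (ZMod p)), A ⊆ range N → 0 < X → 0 < Y →
  (A.card : ℝ) ≤ 4 * X → (B.card : ℝ) ≤ 4 * Y → 1 ≤ L → 2 ^ s * L ≤ N → N ≤ 2 * (2 ^ s * L) → 72 * N ≤ p →
  (p : ℝ) ^ (1 / (l : ℝ) + κ) ≤ N → (N : ℝ) ^ (2 * l) * (p : ℝ) ^ ((2 * l + 3) * κ) ≤ X ^ (2 * l) * Y →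
  (2 : ℝ) ^ s * (N : ℝ) ^ (2 * l - 1) * (p : ℝ) ^ (1 + 1 / (l : ℝ) + (2 * l + 4) * κ) ≤ X ^ (2 * l + 1) * Y ^ 2 →
  (∀ j, ((cl B L j).card : ℝ) ≤ N * (p : ℝ) ^ κ / X) →
  ∀ χ : MulChar (ZMod p) ℂ, χ ≠ 1 → ∀ β : ZMod p → ℂ, (∀ b, ‖β b‖ ≤ 1) →
    ∑ n ∈ A, ‖∑ b ∈ B, β b * χ ((n : ZMod p) + b)‖ ≤ 10 * (p : ℝ) ^ (-(κ / 2)) * (X * Y)

/-- **COREG** (medium, from DENG, SPAG).  `X = |A|`, `Y = |B|` (if one is `0`: trivial).  `κ = ε / (4 (k + l + 2))`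
(so `4κ, (2k+2)κ, (2l+3)κ, (2l+4)κ ≤ ε`, `κ ≤ ε`); `s` with `2^s ≤ V < 2 2^s`, `L = N / 2^s` (`2^s ≤ V ≤ N`);
`72 N ≤ p` from `N ≤ p^(1-ε)`; `V ≤ 2 2^s` in (c1), (c2), `2^s ≤ V` in (c5).  `B₁` = the points of `B` in cells with at
least `N p^κ / X` points, `B₂` the rest (the cells of each part are cells of `B` or empty); DENG, SPAG.
`20 p^(-κ/2) ≤ p^(-κ/4)`. -/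
def COREG_stmt : Prop := ∀ k l : ℕ, 0 < k → 0 < l → ∀ ε : ℝ, 0 < ε → ∃ δ : ℝ, 0 < δ ∧ ∃ p₀ : ℕ,
  ∀ (p : ℕ) [Fact p.Prime], p₀ < p → ∀ (N : ℕ) (V : ℝ) (A : Finset ℕ) (B : Finset (ZMod p)), A ⊆ range N →
  1 ≤ V → V ≤ N → V ^ (2 * k) ≤ p → (p : ℝ) ^ (1 / (l : ℝ) + ε) ≤ N → (N : ℝ) ≤ (p : ℝ) ^ (1 - ε) →
  (N : ℝ) ^ 2 * (p : ℝ) ^ ε ≤ V * (A.card : ℝ) ^ 2 →
  (N : ℝ) ^ (2 * k - 1) * (p : ℝ) ^ (1 + ε) ≤ V ^ (k - 1) * ((A.card : ℝ) ^ (2 * k) * B.card) →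
  (N : ℝ) ^ (2 * l) * (p : ℝ) ^ ε ≤ (A.card : ℝ) ^ (2 * l) * B.card →
  V * (N : ℝ) ^ (2 * l - 1) * (p : ℝ) ^ (1 + 1 / (l : ℝ) + ε) ≤ (A.card : ℝ) ^ (2 * l + 1) * (B.card : ℝ) ^ 2 →
  ∀ χ : MulChar (ZMod p) ℂ, χ ≠ 1 → ∀ β : ZMod p → ℂ, (∀ b, ‖β b‖ ≤ 1) →
    ∑ n ∈ A, ‖∑ b ∈ B, β b * χ ((n : ZMod p) + b)‖ ≤ (p : ℝ) ^ (-δ) * (A.card * B.card)

/-- **FING** (medium, from COREG; the theorem, Moebius images; as FINM).  At most one `w ∈ B` is left out: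
`|B'| ≥ |B| - 1 ≥ |B|/2`, it adds `≤ |A|`; use COREG with `ε/2` (`4 ≤ p^(ε/2)`).  `|B| ≥ p^ε` by the fourth condition
and `|A| ≤ N`. -/
def FING_stmt : Prop := ∀ k l : ℕ, 0 < k → 0 < l → ∀ ε : ℝ, 0 < ε → ∃ δ : ℝ, 0 < δ ∧ ∃ p₀ : ℕ,
  ∀ (p : ℕ) [Fact p.Prime], p₀ < p → ∀ (A B : Finset (ZMod p)) (a b c d : ZMod p) (N : ℕ) (V : ℝ),
  a * d - b * c ≠ 0 →
  (∀ z ∈ A, ∃ n : ℕ, n < N ∧ c * (n : ZMod p) + d ≠ 0 ∧ z = (a * (n : ZMod p) + b) / (c * (n : ZMod p) + d)) →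
  1 ≤ V → V ≤ N → V ^ (2 * k) ≤ p → (p : ℝ) ^ (1 / (l : ℝ) + ε) ≤ N → (N : ℝ) ≤ (p : ℝ) ^ (1 - ε) →
  (N : ℝ) ^ 2 * (p : ℝ) ^ ε ≤ V * (A.card : ℝ) ^ 2 →
  (N : ℝ) ^ (2 * k - 1) * (p : ℝ) ^ (1 + ε) ≤ V ^ (k - 1) * ((A.card : ℝ) ^ (2 * k) * B.card) →
  (N : ℝ) ^ (2 * l) * (p : ℝ) ^ ε ≤ (A.card : ℝ) ^ (2 * l) * B.card →
  V * (N : ℝ) ^ (2 * l - 1) * (p : ℝ) ^ (1 + 1 / (l : ℝ) + ε) ≤ (A.card : ℝ) ^ (2 * l + 1) * (B.card : ℝ) ^ 2 →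
  ∀ χ : MulChar (ZMod p) ℂ, χ ≠ 1 → ∀ β : ZMod p → ℂ, (∀ w, ‖β w‖ ≤ 1) →
    ∑ z ∈ A, ‖∑ w ∈ B, β w * χ (z + w)‖ ≤ (p : ℝ) ^ (-δ) * (A.card * B.card)

end Pool.Agent.PJ
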