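import Pool.Agent.helper95.PY2.All
import Pool.Agent.helper81.PJ.MAX
import Pool.Agent.helper75.PJ.MO1
import Pool.Agent.helper78.PJ.MO2
import Pool.Agent.helper30.PJ.SH1
import Pool.Agent.helper39.PJ.SH2
import Pool.Agent.helper3.PJ.CSA
import Pool.Agent.helper40.PJ.NU1
import Pool.Agent.helper48.PJ.DPG
import Pool.Agent.helper13.PJ.SSQ
import Pool.Agent.helper83.PJ.NU2
import Pool.Agent.helper54.PJ.MS2
import Pool.Agent.helper55.PJ.EN2
import Pool.Agent.helper68.PJ.NUG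
import Pool.Agent.helper72.PJ.HO2
import Pool.Agent.helper76.PJ.SPQG
import Pool.Agent.helper81.PJ.CEL
import Pool.Agent.helper89.PJ.DENG
import Pool.Agent.helper98.PJ.SPAG
import Pool.Agent.helper30.PJ.COREG
import Pool.Agent.helper9.PJ.FING

/-!
# Project pj: assembly
-/

set_option autoImplicit false

namespace Pool.Agent.PJ

theorem p_MAX : MAX_stmt := MAX

theorem p_MO1 : MO1_stmt := MO1 Pool.Agent.PY2.p_MOM

theorem p_MO2 : MO2_stmt := MO2

theorem p_SH1 : SH1_stmt := SH1 p_MAX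

theorem p_SH2 : SH2_stmt := SH2 p_MAX

theorem p_NU1 : NU1_stmt := NU1 p_MAX p_SH1

theorem p_NU2 : NU2_stmt := NU2 p_MAX p_SH2

theorem p_DPG : DPG_stmt :=
  DPG p_MAX p_NU1 p_MO1 Pool.Agent.PY2.p_MASS Pool.Agent.PY2.p_COL Pool.Agent.PY2.p_HOL

theorem p_SPQG : SPQG_stmt := SPQG p_MAX p_NU2 p_MO2 MS2 EN2 NUG HO2

theorem p_DENG : DENG_stmt := DENG CSA p_DPG Pool.Agent.PY2.p_DIV

theorem p_SPAG : SPAG_stmt := SPAG SSQ p_SPQG CEL Pool.Agent.PY2.p_DIV

theorem p_COREG : COREG_stmt := COREG p_DENG p_SPAG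

theorem p_FING : FING_stmt := FING p_COREG

end Pool.Agent.PJ
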